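import Pool.Agent.Q234.KG.Stm

/-!
# Project KG, job DI: every one site Hamiltonian with a unique ground state is unitarily equivalent to a circulant one
-/

set_option autoImplicit false

namespace Pool.Agent.Q231.KG.DI

open scoped BigOperators Matrix
open Finset Pool.Agent.TH235.PP Pool.Agent.Q234.KG

set_option linter.unusedSectionVars false

section cr

variable {d : ℕ} [NeZero d]

theorem cr_comm (a b : Fin d) : cr a b = cr b a := by
  unfold cr
  rw [mul_comm ((a : ℕ) : ℂ)]

/-- the exponential of a natural number modulo `d` -/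
theorem exp_mod (n : ℕ) : Complex.exp (2 * Real.pi * Complex.I * ((n % d : ℕ) : ℂ) / d) =
    Complex.exp (2 * Real.pi * Complex.I * (n : ℂ) / d) := by
  have hd : (d : ℂ) ≠ 0 := Nat.cast_ne_zero.2 (NeZero.ne d)
  have h : (n : ℂ) = ((n % d : ℕ) : ℂ) + d * ((n / d : ℕ) : ℂ) := by
    have := Nat.mod_add_div n d
    exact_mod_cast this.symm
  have h2 : 2 * Real.pi * Complex.I * (n : ℂ) / d =
      2 * Real.pi * Complex.I * ((n % d : ℕ) : ℂ) / d + ((n / d : ℕ) : ℤ) * (2 * Real.pi * Complex.I) := by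
    rw [Int.cast_natCast, h]
    field_simp
  rw [h2, Complex.exp_add, Complex.exp_int_mul_two_pi_mul_I, mul_one]

theorem cr_add (a b c : Fin d) : cr a (b + c) = cr a b * cr a c := by
  have key : ∀ x y : ℕ, Complex.exp (2 * Real.pi * Complex.I * ((x : ℂ) * (y : ℂ)) / d) =
      Complex.exp (2 * Real.pi * Complex.I * ((x * y % d : ℕ) : ℂ) / d) := by
    intro x y
    rw [exp_mod]
    push_cast
    rfl
  unfold cr
  rw [key, ← Complex.exp_add, Fin.val_add, Nat.mul_mod, Nat.mod_mod, ← Nat.mul_mod, exp_mod]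
  congr 1
  push_cast
  ring

theorem cr_zero (a : Fin d) : cr a 0 = 1 := by
  unfold cr
  simp

theorem cr_norm (a b : Fin d) : ‖cr a b‖ = 1 := by
  unfold cr
  have h : 2 * Real.pi * Complex.I * ((a : ℕ) * (b : ℕ) : ℂ) / d =
      ((2 * Real.pi * ((a : ℕ) * (b : ℕ)) / d : ℝ) : ℂ) * Complex.I := by
    push_cast
    ring
  rw [h, Complex.norm_exp_ofReal_mul_I]

theorem conj_cr_mul (a b : Fin d) : (starRingEnd ℂ) (cr a b) * cr a b = 1 := by
  rw [mul_comm, Complex.mul_conj, Complex.normSq_eq_norm_sq, cr_norm]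
  simp

theorem cr_sub (a b c : Fin d) : cr a b * (starRingEnd ℂ) (cr a c) = (starRingEnd ℂ) (cr a (c - b)) := by
  have h : cr a c = cr a (c - b) * cr a b := by
    rw [← cr_add, sub_add_cancel]
  rw [h, map_mul]
  have h2 := conj_cr_mul a b
  calc cr a b * ((starRingEnd ℂ) (cr a (c - b)) * (starRingEnd ℂ) (cr a b))
      = (starRingEnd ℂ) (cr a (c - b)) * ((starRingEnd ℂ) (cr a b) * cr a b) := by ring
    _ = _ := by rw [h2, mul_one]

theorem cr_one_ne (a : Fin d) (ha : a ≠ 0) : cr a 1 ≠ 1 := by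
  intro h
  have ha0 : (a : ℕ) ≠ 0 := fun h0 => ha (Fin.ext h0)
  have hd2 : 1 < d := by
    have := a.isLt
    omega
  have h1 : ((1 : Fin d) : ℕ) = 1 := by
    rw [Fin.val_one', Nat.mod_eq_of_lt hd2]
  unfold cr at h
  rw [h1, Complex.exp_eq_one_iff] at h
  obtain ⟨n, hn⟩ := h
  have hd : (d : ℂ) ≠ 0 := Nat.cast_ne_zero.2 (NeZero.ne d)
  have h3 : ((a : ℕ) : ℂ) = n * d := by
    have h4 : (2 * Real.pi * Complex.I : ℂ) ≠ 0 := Complex.two_pi_I_ne_zero
    rw [Nat.cast_one, mul_one, div_eq_iff hd] at hn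
    have h5 : (2 * Real.pi * Complex.I : ℂ) * (a : ℕ) = (2 * Real.pi * Complex.I) * (n * d) := by
      rw [hn]
      ring
    exact mul_left_cancel₀ h4 h5
  have h6 : ((a : ℕ) : ℤ) = n * d := by exact_mod_cast h3
  have h7 := a.isLt
  have h8 : 0 < n := by
    by_contra hneg
    push Not at hneg
    have : (n : ℤ) * d ≤ 0 := mul_nonpos_of_nonpos_of_nonneg hneg (by positivity)
    omega
  have h9 : (d : ℤ) ≤ n * d := by nlinarith
  omega

theorem sum_cr (a : Fin d) : ∑ b, cr a b = if a = 0 then (d : ℂ) else 0 := by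
  split_ifs with h
  · subst h
    have : ∀ b : Fin d, cr 0 b = 1 := fun b => by rw [cr_comm, cr_zero]
    simp [this]
  · have h1 : ∑ b, cr a b = cr a 1 * ∑ b, cr a b := by
      rw [Finset.mul_sum]
      refine Fintype.sum_equiv (Equiv.subRight 1) _ _ fun b => ?_
      rw [Equiv.subRight_apply, ← cr_add, add_sub_cancel]
    have h2 : (cr a 1 - 1) * ∑ b, cr a b = 0 := by
      rw [sub_mul, one_mul, ← h1, sub_self]
    exact (mul_eq_zero.1 h2).resolve_left (sub_ne_zero.2 (cr_one_ne a h))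

/-- orthogonality -/
theorem orth (k l : Fin d) : ∑ c, cr k c * (starRingEnd ℂ) (cr l c) = if k = l then (d : ℂ) else 0 := by
  have h1 : ∀ c, cr k c * (starRingEnd ℂ) (cr l c) = (starRingEnd ℂ) (cr (l - k) c) := by
    intro c
    rw [cr_comm k, cr_comm l, cr_sub, cr_comm]
  simp only [h1]
  rw [← map_sum, sum_cr]
  by_cases h : k = l
  · subst h
    simp
  · rw [if_neg h, if_neg (sub_ne_zero.2 (Ne.symm h)), map_zero]

end cr

/-- the Fourier matrix -/
noncomputable def Fm (d : ℕ) [NeZero d] : Matrix (Fin d) (Fin d) ℂ :=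
  fun s k => ((Real.sqrt d : ℝ) : ℂ)⁻¹ * cr k s

theorem sqrt_sq (d : ℕ) [NeZero d] : ((Real.sqrt d : ℝ) : ℂ)⁻¹ * ((Real.sqrt d : ℝ) : ℂ)⁻¹ = (d : ℂ)⁻¹ := by
  rw [← mul_inv, ← Complex.ofReal_mul, Real.mul_self_sqrt (Nat.cast_nonneg d), Complex.ofReal_natCast]

theorem Fm_star (d : ℕ) [NeZero d] : (Fm d).conjTranspose * Fm d = 1 := by
  ext k l
  rw [Matrix.mul_apply, Matrix.one_apply]
  have h1 : ∀ s, (Fm d).conjTranspose k s * Fm d s l = (d : ℂ)⁻¹ * (cr l s * (starRingEnd ℂ) (cr k s)) := by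
    intro s
    rw [Matrix.conjTranspose_apply]
    simp only [Fm, Complex.star_def, map_mul, map_inv₀, Complex.conj_ofReal]
    calc ((Real.sqrt d : ℝ) : ℂ)⁻¹ * (starRingEnd ℂ) (cr k s) * (((Real.sqrt d : ℝ) : ℂ)⁻¹ * cr l s)
        = (((Real.sqrt d : ℝ) : ℂ)⁻¹ * ((Real.sqrt d : ℝ) : ℂ)⁻¹) * (cr l s * (starRingEnd ℂ) (cr k s)) := by ring
      _ = _ := by rw [sqrt_sq]
  simp only [h1]
  rw [← Finset.mul_sum, orth]
  have hd : (d : ℂ) ≠ 0 := Nat.cast_ne_zero.2 (NeZero.ne d)
  by_cases h : k = l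
  · subst h
    simp [hd]
  · rw [if_neg h, if_neg (Ne.symm h), mul_zero]

theorem main : DiaS := by
  intro d _ a γ φ hA hγ hφ hgr
  obtain ⟨E, hE, hsimple, hgap⟩ := hgr
  set b := hA.eigenvectorBasis with hb
  set lam := hA.eigenvalues with hlam
  have hAb : ∀ j, a *ᵥ (b j).ofLp = (lam j : ℂ) • (b j).ofLp := by
    intro j
    have := hA.mulVec_eigenvectorBasis j
    rw [this]
    rfl
  have hbne : ∀ j, (b j).ofLp ≠ 0 := by
    intro j h
    have h1 : ‖b j‖ = 1 := b.orthonormal.1 j
    have h2 : b j = 0 := by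
      ext i
      exact congrFun h i
    rw [h2, norm_zero] at h1
    exact zero_ne_one h1
  -- the ground state is one of the eigenvectors
  obtain ⟨k0, hk0⟩ : ∃ k0, lam k0 = E := by
    by_contra hno
    push Not at hno
    -- all coefficients of φ vanish
    have hz : ∀ j, b.repr (WithLp.toLp 2 φ) j = 0 := by
      intro j
      have h1 : (inner ℂ (b j) (WithLp.toLp 2 (a *ᵥ φ)) : ℂ) = (lam j : ℂ) * inner ℂ (b j) (WithLp.toLp 2 φ) := by
        have e1 : (inner ℂ (b j) (WithLp.toLp 2 (a *ᵥ φ)) : ℂ) = (a *ᵥ φ) ⬝ᵥ star (b j).ofLp := rfl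
        have e2 : (inner ℂ (b j) (WithLp.toLp 2 φ) : ℂ) = φ ⬝ᵥ star (b j).ofLp := rfl
        have e3 : star (a *ᵥ (b j).ofLp) = star (b j).ofLp ᵥ* a := by
          rw [Matrix.star_mulVec, hA.eq]
        have e4 : (a *ᵥ φ) ⬝ᵥ star (b j).ofLp = φ ⬝ᵥ (star (b j).ofLp ᵥ* a)  := by
          rw [dotProduct_comm, Matrix.dotProduct_mulVec, dotProduct_comm]
        rw [e1, e2, e4, ← e3, hAb j, star_smul, dotProduct_smul, smul_eq_mul]
        simp
      rw [hE] at h1
      have h2 : (WithLp.toLp 2 ((E : ℂ) • φ) : EuclideanSpace ℂ (Fin d)) = (E : ℂ) • WithLp.toLp 2 φ := rfl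
      rw [h2, inner_smul_right] at h1
      rw [b.repr_apply_apply]
      have h3 : ((E : ℂ) - lam j) * inner ℂ (b j) (WithLp.toLp 2 φ) = 0 := by
        rw [sub_mul, h1, sub_self]
      refine (mul_eq_zero.1 h3).resolve_left (sub_ne_zero.2 ?_)
      intro h
      exact hno j (Complex.ofReal_injective h).symm
    have h0 : (WithLp.toLp 2 φ : EuclideanSpace ℂ (Fin d)) = 0 := by
      have : b.repr (WithLp.toLp 2 φ) = 0 := by
        ext j
        exact hz j
      exact (b.repr.map_eq_zero_iff).1 this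
    apply hφ
    have := congrArg WithLp.ofLp h0
    exact this
  have hother : ∀ j, j ≠ k0 → E + γ ≤ lam j := by
    intro j hj
    rcases hgap (lam j) _ (hbne j) (hAb j) with h | h
    · exfalso
      obtain ⟨c, hc⟩ := hsimple _ ((hAb j).trans (by rw [h]))
      obtain ⟨c', hc'⟩ := hsimple _ ((hAb k0).trans (by rw [hk0]))
      have h1 : c' • (b j).ofLp - c • (b k0).ofLp = 0 := by
        rw [hc, hc', smul_smul, smul_smul, mul_comm, sub_self]
      have hcne : c ≠ 0 := by
        rintro rfl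
        rw [zero_smul] at hc
        exact hbne j hc
      have h2 : c' • b j - c • b k0 = 0 := by
        ext i
        exact congrFun h1 i
      have h3 := congrArg (fun v => (inner ℂ (b k0) v : ℂ)) h2
      simp only [inner_sub_right, inner_smul_right, inner_zero_right] at h3
      rw [b.inner_eq_zero (Ne.symm hj), b.inner_eq_one, mul_zero, mul_one, zero_sub, neg_eq_zero] at h3
      exact hcne h3
    · exact h
  -- the permuted unitary
  let π : Equiv.Perm (Fin d) := Equiv.swap 0 k0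
  let U : Matrix (Fin d) (Fin d) ℂ := fun i k => (b (π k)).ofLp i
  have hUU : U.conjTranspose * U = 1 := by
    ext k l
    rw [Matrix.mul_apply, Matrix.one_apply]
    have h1 : ∑ j, U.conjTranspose k j * U j l = (inner ℂ (b (π k)) (b (π l)) : ℂ) := by
      rw [PiLp.inner_apply]
      refine Finset.sum_congr rfl fun j _ => ?_
      rw [Matrix.conjTranspose_apply, RCLike.inner_apply, mul_comm]
      rfl
    rw [h1]
    by_cases h : k = l
    · rw [h, if_pos rfl, b.inner_eq_one]
    · rw [if_neg h, b.inner_eq_zero (fun h' => h (π.injective h'))]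
  have hUU' : U * U.conjTranspose = 1 := mul_eq_one_comm.1 hUU
  have hFF := Fm_star d
  have hFF' : Fm d * (Fm d).conjTranspose = 1 := mul_eq_one_comm.1 hFF
  let μ : Fin d → ℂ := fun k => (lam (π k) : ℂ)
  have haU : a * U = U * Matrix.diagonal μ := by
    ext i k
    rw [Matrix.mul_diagonal]
    have h1 := congrFun (hAb (π k)) i
    rw [Pi.smul_apply, smul_eq_mul, mul_comm] at h1
    exact h1
  let e : Fin d → ℝ := fun k => (lam (π k) - E) / γ
  let α : Fin d → ℂ := fun c => (d : ℂ)⁻¹ * ∑ k, (e k : ℂ) * (starRingEnd ℂ) (cr k c)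
  have hd : (d : ℂ) ≠ 0 := Nat.cast_ne_zero.2 (NeZero.ne d)
  have hγ' : (γ : ℂ) ≠ 0 := by
    exact_mod_cast hγ.ne'
  refine ⟨Fm d * U.conjTranspose, E, α, e, ?_, ?_, ⟨?_, ?_, ?_⟩, ?_⟩
  · rw [Matrix.conjTranspose_mul, Matrix.conjTranspose_conjTranspose, Matrix.mul_assoc, ← Matrix.mul_assoc _ U,
      hUU, Matrix.one_mul, hFF']
  · rw [Matrix.conjTranspose_mul, Matrix.conjTranspose_conjTranspose, Matrix.mul_assoc, ← Matrix.mul_assoc _ (Fm d),
      hFF, Matrix.one_mul, hUU']
  · intro k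
    have h1 : ∀ c, α c * cr k c = ∑ l, (d : ℂ)⁻¹ * (e l : ℂ) * (cr k c * (starRingEnd ℂ) (cr l c)) := by
      intro c
      simp only [α]
      rw [Finset.mul_sum, Finset.sum_mul]
      refine Finset.sum_congr rfl fun l _ => ?_
      ring
    simp only [h1]
    rw [Finset.sum_comm]
    simp only [← Finset.mul_sum, orth]
    rw [Finset.sum_eq_single k]
    · rw [if_pos rfl]
      field_simp
    · intro l _ hl
      rw [if_neg (Ne.symm hl), mul_zero]
    · intro h
      exact absurd (Finset.mem_univ k) h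
  · simp only [e, π]
    rw [Equiv.swap_apply_left, hk0, sub_self, zero_div]
  · intro k hk
    have hne : π k ≠ k0 := by
      intro h
      apply hk
      have : π 0 = k0 := Equiv.swap_apply_left 0 k0
      exact π.injective (h.trans this.symm)
    have h1 := hother _ hne
    simp only [e]
    rw [le_div_iff₀ hγ]
    linarith
  · intro s t
    have h1 : Fm d * U.conjTranspose * a * (Fm d * U.conjTranspose).conjTranspose =
        Fm d * Matrix.diagonal μ * (Fm d).conjTranspose := by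
      rw [Matrix.conjTranspose_mul, Matrix.conjTranspose_conjTranspose]
      calc Fm d * U.conjTranspose * a * (U * (Fm d).conjTranspose)
          = Fm d * (U.conjTranspose * (a * U)) * (Fm d).conjTranspose := by
            simp only [Matrix.mul_assoc]
        _ = Fm d * ((U.conjTranspose * U) * Matrix.diagonal μ) * (Fm d).conjTranspose := by
            rw [haU]
            simp only [Matrix.mul_assoc]
        _ = _ := by rw [hUU, Matrix.one_mul]
    rw [h1, Matrix.mul_apply]
    have h2 : ∀ k, (Fm d * Matrix.diagonal μ) s k * (Fm d).conjTranspose k t =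
        γ * ((d : ℂ)⁻¹ * ((e k : ℂ) * (starRingEnd ℂ) (cr k (t - s)))) +
          E * ((d : ℂ)⁻¹ * (cr k s * (starRingEnd ℂ) (cr k t))) := by
      intro k
      rw [Matrix.mul_diagonal, Matrix.conjTranspose_apply]
      have h3 : μ k = γ * e k + E := by
        simp only [μ, e]
        push_cast
        field_simp
        ring
      rw [h3, ← cr_sub]
      simp only [Fm, Complex.star_def, map_mul, map_inv₀, Complex.conj_ofReal]
      calc ((Real.sqrt d : ℝ) : ℂ)⁻¹ * cr k s * (γ * e k + E) * (((Real.sqrt d : ℝ) : ℂ)⁻¹ * (starRingEnd ℂ) (cr k t))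
          = (((Real.sqrt d : ℝ) : ℂ)⁻¹ * ((Real.sqrt d : ℝ) : ℂ)⁻¹) * (cr k s * (starRingEnd ℂ) (cr k t)) *
            (γ * e k + E) := by ring
        _ = _ := by
          rw [sqrt_sq]
          ring
    simp only [h2]
    rw [Finset.sum_add_distrib, ← Finset.mul_sum, ← Finset.mul_sum, ← Finset.mul_sum, ← Finset.mul_sum]
    have h4 : ∑ k, cr k s * (starRingEnd ℂ) (cr k t) = if s = t then (d : ℂ) else 0 := by
      simp only [cr_comm _ s, cr_comm _ t]
      exact orth s t
    rw [h4]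
    by_cases hst : s = t
    · rw [if_pos hst, if_pos hst]
      field_simp
      simp only [α]
      field_simp
    · rw [if_neg hst, if_neg hst, mul_zero, mul_zero, add_zero]

end Pool.Agent.Q231.KG.DI
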